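import Mathlib
import Pool.Agent.Work.MP_9521de_co.Area

namespace Pool.Agent.Results.MP_9521de_co.Checkerboard

open MeasureTheory Pool.Agent.Work.MP_9521de_co

/-- For every `ρ < 1` and all `c, C > 0` there is an `ε`-visible space (a square `R` with finitely
many disjoint square obstacles, free space `F` of area at least `ρ` times that of `R`) in which
the points seeing boundary of length less than `c √(ε μ(F))` contain a measurable set of area
more than `C √ε μ(F)`. -/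
theorem result (ρ c C : ℝ) (hρ : ρ < 1) (hc : 0 < c) (hC : 0 < C) :
    ∃ (ε : ℝ) (R : Set ℂ) (𝒪 : Set (Set ℂ)),
      0 < ε ∧ ε ≤ 1 ∧ IsSquare R ∧ 𝒪.Finite ∧ (∀ O ∈ 𝒪, IsSquare O ∧ O ⊆ interior R) ∧
      𝒪.PairwiseDisjoint id ∧
      ρ * volume.real R ≤ volume.real (R \ ⋃₀ 𝒪) ∧
      (∀ v ∈ R \ ⋃₀ 𝒪,
        ε * volume.real (R \ ⋃₀ 𝒪) ≤ volume.real (visibleRegion (R \ ⋃₀ 𝒪) v)) ∧
      ∃ A : Set ℂ, MeasurableSet A ∧
        A ⊆ {v | v ∈ R \ ⋃₀ 𝒪 ∧
          μH[1] (visibleBoundary (frontier (⋃₀ 𝒪) ∪ frontier R) v) <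
            ENNReal.ofReal (c * √(ε * volume.real (R \ ⋃₀ 𝒪)))} ∧
        C * √ε * volume.real (R \ ⋃₀ 𝒪) < volume.real A := by
  have hρ' : 0 < 1 - ρ := by linarith
  obtain ⟨K, hK4, hKρ⟩ : ∃ K : ℝ, 4 ≤ K ∧ 1 ≤ (1 - ρ) * K := by
    refine ⟨4 + 1 / (1 - ρ), by have := one_div_pos.2 hρ'; linarith, ?_⟩
    rw [mul_add, mul_one_div_cancel hρ'.ne']
    linarith
  obtain ⟨s, hs⟩ := exists_nat_gt (max (8 * (70 + 16 * K) / c) (max (160000 * C * K ^ 2) 1))
  have hs1 : 8 * (70 + 16 * K) / c < s := lt_of_le_of_lt (le_max_left _ _) hs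
  have hs2 : 160000 * C * K ^ 2 < s :=
    lt_of_le_of_lt ((le_max_left _ _).trans (le_max_right _ _)) hs
  have hs3 : (1 : ℝ) < s := lt_of_le_of_lt ((le_max_right _ _).trans (le_max_right _ _)) hs
  have hs0 : (0 : ℝ) < s := by linarith
  obtain ⟨M, hM⟩ : ∃ M : ℕ, (M : ℝ) = (s : ℝ) ^ 4 := ⟨s ^ 4, by push_cast; ring⟩
  have hM1 : (1 : ℝ) ≤ M := by rw [hM]; exact one_le_pow₀ hs3.le
  have hM1' : 1 ≤ M := by exact_mod_cast hM1
  obtain ⟨L, hL⟩ : ∃ L : ℝ, L = 4 * K * M := ⟨_, rfl⟩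
  have hLM : 16 * (M : ℝ) ≤ L := by rw [hL]; nlinarith
  have hL0 : 0 ≤ L := by linarith
  have hn : ((2 * (2 * M) : ℕ) : ℝ) = 4 * M := by push_cast; ring
  have hN : ((2 * M : ℕ) : ℝ) = 2 * M := by push_cast; ring
  have hle := free_le (2 * (2 * M)) L hL0
  have hge := free_ge (2 * (2 * M)) (by omega) L hL0
  rw [hn] at hge
  obtain ⟨ε, hε⟩ : ∃ ε : ℝ, ε = 1 / (20 * K ^ 2 * M) := ⟨_, rfl⟩
  have hK2 : 16 ≤ K ^ 2 := by nlinarith
  have hε0 : 0 < ε := by rw [hε]; positivity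
  have hεM : ε * M ≤ 1 := by
    rw [hε, div_mul_eq_mul_div, div_le_one (by positivity)]
    nlinarith
  have hεL : ε * L ^ 2 = 4 * M / 5 := by
    rw [hε, hL]
    field_simp
    ring
  refine ⟨ε, Sq 0 0 L, Obst (2 * (2 * M)), hε0, by nlinarith, isSquare_Sq _ _ _ (by linarith),
    finite_Obst _, obst_subset _ L (by rw [hn]; linarith), pairwiseDisjoint_Obst _, ?_, ?_,
    Core M, measurableSet_Core M, ?_, ?_⟩
  · rw [real_Sq L hL0]
    have h1 : 9 * (4 * (M : ℝ)) ^ 2 ≤ (1 - ρ) * (4 * L ^ 2) := by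
      have h2 : (1 - ρ) * (4 * L ^ 2) = ((1 - ρ) * K) * K * (64 * (M : ℝ) ^ 2) := by
        rw [hL]; ring
      have h3 : 4 ≤ ((1 - ρ) * K) * K := by nlinarith
      have h4 : 0 ≤ (M : ℝ) ^ 2 := by positivity
      rw [h2]
      nlinarith
    linarith
  · intro v hv
    have h1 := visibleRegion_ge (2 * (2 * M)) (by omega) L (by rw [hn]; linarith) v hv
    rw [hn] at h1
    have h2 := mul_le_mul_of_nonneg_left hle hε0.le
    linarith
  · intro v hv
    have hadm := adm_of_mem_Core M v hv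
    have hfree := mem_free_of_adm (2 * M) (2 * (2 * M)) L (by rw [hN]; linarith) v hadm
    refine ⟨hfree, ?_⟩
    have h1 := measure_mono (μ := μH[1]) (visibleBoundary_subset (2 * (2 * M)) L v
      fun h => hfree.2 ((mem_sUnion_Obst _ v).2 h))
    have h2 := vis_le (2 * M) (by omega) L (by rw [hN]; linarith) v hadm
    refine lt_of_le_of_lt (h1.trans h2) ?_
    have h3 : (s : ℝ) ^ 2 ≤ √(ε * volume.real (Sq 0 0 L \ ⋃₀ Obst (2 * (2 * M)))) := by
      apply Real.le_sqrt_of_sq_le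
      have h4 : 2 * L ^ 2 ≤ volume.real (Sq 0 0 L \ ⋃₀ Obst (2 * (2 * M))) := by nlinarith
      have h5 := mul_le_mul_of_nonneg_left h4 hε0.le
      have h6 : ((s : ℝ) ^ 2) ^ 2 = M := by rw [hM]; ring
      linarith
    have h4 : Real.log (3 * ((2 * M : ℕ) : ℝ)) ≤ 5 + 4 * s := by
      have : 3 * ((2 * M : ℕ) : ℝ) = 6 * (s : ℝ) ^ 4 := by rw [hN, hM]; ring
      rw [this, Real.log_mul (by norm_num) (by positivity), Real.log_pow]
      have a := Real.log_le_sub_one_of_pos (show (0 : ℝ) < 6 by norm_num)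
      have b := Real.log_le_sub_one_of_pos hs0
      push_cast
      linarith
    have h5 : 8 * L / ((2 * M : ℕ) : ℝ) = 16 * K := by
      rw [hN, hL]
      field_simp
      ring
    have h6 : 8 * (70 + 16 * K) * s < c * (s : ℝ) ^ 2 := by
      rw [div_lt_iff₀ hc] at hs1
      nlinarith
    have h7 : c * (s : ℝ) ^ 2 ≤ c * √(ε * volume.real (Sq 0 0 L \ ⋃₀ Obst (2 * (2 * M)))) :=
      mul_le_mul_of_nonneg_left h3 hc.le
    have h8 : 0 < c * (s : ℝ) ^ 2 := by positivity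
    rw [ENNReal.ofReal_lt_ofReal_iff (by linarith), h5]
    nlinarith
  · rw [real_Core]
    have h1 : √ε ≤ 1 / (s : ℝ) ^ 2 := by
      apply Real.sqrt_le_iff.2
      refine ⟨by positivity, ?_⟩
      rw [div_pow, le_div_iff₀ (by positivity)]
      have h6 : ((s : ℝ) ^ 2) ^ 2 = M := by rw [hM]; ring
      rw [h6]
      linarith
    have h2 : 1 / (s : ℝ) ^ 2 ≤ 1 / s :=
      one_div_le_one_div_of_le hs0 (by nlinarith)
    have h3 : C * √ε * volume.real (Sq 0 0 L \ ⋃₀ Obst (2 * (2 * M))) ≤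
        C * (1 / s) * (4 * L ^ 2) :=
      mul_le_mul (mul_le_mul_of_nonneg_left (h1.trans h2) hC.le) hle measureReal_nonneg
        (by positivity)
    refine lt_of_le_of_lt h3 ?_
    have h4 : C * (1 / s) * (4 * L ^ 2) = (160000 * C * K ^ 2 / s) * ((M : ℝ) ^ 2 / 2500) := by
      rw [hL]
      field_simp
      ring
    have h5 : 160000 * C * K ^ 2 / s < 1 := (div_lt_one hs0).2 hs2
    have h6 : 0 < (M : ℝ) ^ 2 / 2500 := by positivity
    rw [h4]
    nlinarith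

end Pool.Agent.Results.MP_9521de_co.Checkerboard
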